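import Mathlib

/-! Normal series with abelian, finite bounded exponent, or linear factors. -/

namespace Pool.Agent.MP_3312ae_al.H59

universe u v

/-- The group `T` has a normal series of length `f` each of whose factors is abelian, or finite
of exponent dividing `m`, or faithfully represented by a homomorphism of `T` to a general linear
group of degree `n` over a commutative ring. -/
def Ser (n m f : ℕ) (T : Type u) [Group T] : Prop :=
  ∃ S : ℕ → Subgroup T, S 0 = ⊤ ∧ S f = ⊥ ∧ ∀ i < f, (S i).Normal ∧ S (i + 1) ≤ S i ∧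
    (⁅S i, S i⁆ ≤ S (i + 1) ∨
      ((S (i + 1)).relIndex (S i) ≠ 0 ∧ ∀ g ∈ S i, g ^ m ∈ S (i + 1)) ∨
      ∃ (R : Type v) (_ : CommRing R) (ρ : T →* GL (Fin n) R), S i ⊓ ρ.ker ≤ S (i + 1))

end Pool.Agent.MP_3312ae_al.H59
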