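import Pool.Agent.MP_3312ae_al.H59.Sect

/-! The trace argument of Burnside for a coset of bounded exponent. -/

namespace Pool.Agent.MP_3312ae_al.H59

open Subgroup Polynomial
open scoped Pointwise

universe u

section trace

variable {k : Type*} [Field k] [IsAlgClosed k] {V : Type*} [AddCommGroup V] [Module k V]
  [FiniteDimensional k V]

lemma sum_mem_nsmul {k : Type*} [AddCommMonoid k] [DecidableEq k] (μ : Finset k)
    (s : Multiset k) (h : ∀ x ∈ s, x ∈ μ) : s.sum ∈ s.card • μ := by
  induction s using Multiset.induction_on with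
  | empty => simp
  | cons a s ih =>
    rw [Multiset.sum_cons, Multiset.card_cons, succ_nsmul']
    exact Finset.add_mem_add (h a (Multiset.mem_cons_self a s))
      (ih fun x hx => h x (Multiset.mem_cons_of_mem hx))

lemma exists_traces (k : Type*) [Field k] [IsAlgClosed k] (V : Type*) [AddCommGroup V]
    [Module k V] [FiniteDimensional k V] (N : ℕ) (hN : 0 < N) :
    ∃ T : Finset k, T.card ≤ N ^ Module.finrank k V ∧
      ∀ a : Module.End k V, a ^ N = 1 → LinearMap.trace k V a ∈ T := by
  classical
  refine ⟨Module.finrank k V • (nthRoots N (1 : k)).toFinset, ?_, fun a ha => ?_⟩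
  · refine Finset.card_nsmul_le.trans (Nat.pow_le_pow_left ?_ _)
    exact (Multiset.toFinset_card_le _).trans (card_nthRoots N 1)
  · have hs : a.charpoly.Splits := IsAlgClosed.splits _
    rw [Module.End.trace_eq_sum_roots_charpoly_of_splits hs]
    have hc : a.charpoly.roots.card = Module.finrank k V := by
      rw [← hs.natDegree_eq_card_roots, LinearMap.charpoly_natDegree]
    rw [← hc]
    refine sum_mem_nsmul _ _ fun x hx => ?_
    have h1 : Module.End.HasEigenvalue a x :=
      (Module.End.hasEigenvalue_iff_isRoot_charpoly a x).2 (isRoot_of_mem_roots hx)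
    obtain ⟨v, hv⟩ := h1.exists_hasEigenvector
    have h2 := hv.pow_apply N
    rw [ha] at h2
    have h3 : (x ^ N - 1) • v = 0 := by
      rw [sub_smul, ← h2]; simp
    rw [Multiset.mem_toFinset, mem_nthRoots hN]
    exact sub_eq_zero.1 ((smul_eq_zero.1 h3).resolve_right hv.2)

omit [IsAlgClosed k] in
lemma eq_zero_of_trace (a : Module.End k V) (h : ∀ x, LinearMap.trace k V (a * x) = 0) :
    a = 0 := by
  ext v
  refine (Module.forall_dual_apply_eq_zero_iff k (a v)).1 fun f => ?_
  have h1 := h (f.smulRight v)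
  have h2 : a * f.smulRight v = f.smulRight (a v) := by
    ext w
    simp
  rwa [h2, LinearMap.trace_smulRight] at h1

end trace

section modules

variable {L : Type*} [Group L] {A : Type*} [Ring A]

/-- The kernel of the action of a group through a ring. -/
def kerV (ι : L →* A) (V : Type*) [AddCommGroup V] [Module A V] : Subgroup L :=
  ((Module.toAddMonoidEnd A V).toMonoidHom.comp ι).ker

lemma mem_kerV {ι : L →* A} {V : Type*} [AddCommGroup V] [Module A V] {g : L} :
    g ∈ kerV ι V ↔ ∀ v : V, ι g • v = v := by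
  rw [kerV, MonoidHom.mem_ker]
  exact ⟨fun h v => DFunLike.congr_fun h v, fun h => AddMonoidHom.ext h⟩

instance (ι : L →* A) (V : Type*) [AddCommGroup V] [Module A V] : (kerV ι V).Normal :=
  MonoidHom.normal_ker _

variable {k : Type*} [Field k] [IsAlgClosed k] [Algebra k A]

lemma burnside (V : Type*) [AddCommGroup V] [Module k V] [Module A V] [IsScalarTower k A V]
    [FiniteDimensional k V] [IsSimpleModule A V] :
    Function.Surjective (Algebra.lsmul k k V : A →ₐ[k] Module.End k V) := by
  intro f
  have hb := IsSimpleModule.algebraMap_end_bijective_of_isAlgClosed (A := A) (V := V) k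
  obtain ⟨s, hs⟩ := Module.Finite.fg_top (R := k) (M := V)
  let F : Module.End (Module.End A V) V :=
    { toFun := f
      map_add' := f.map_add
      map_smul' := fun e v => by
        obtain ⟨c, rfl⟩ := hb.2 e
        simp }
  obtain ⟨r, hr⟩ := jacobson_density F s
  refine ⟨r, LinearMap.ext_on hs fun v hv => ?_⟩
  exact (hr v hv).symm

/-- The bound for the image in the simple case. -/
def bd (N n : ℕ) : ℕ := ((N ^ n) ^ (n * n)).factorial

lemma simple_case (ι : L →* A) (hspan : Submodule.span k (Set.range ι) = ⊤) (β : A) {N n : ℕ}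
    (hN : 0 < N) (V : Type*) [AddCommGroup V] [Module k V] [Module A V] [IsScalarTower k A V]
    [FiniteDimensional k V] [IsSimpleModule A V] (hn : Module.finrank k V ≤ n)
    (h : ∀ g, ∀ v : V, (β * ι g) ^ N • v = v) :
    (kerV ι V).FiniteIndex ∧ ∀ g, g ^ bd N n ∈ kerV ι V := by
  classical
  let φ : A →ₐ[k] Module.End k V := Algebra.lsmul k k V
  have hφ : Function.Surjective φ := burnside V
  have hsp : Submodule.span k (Set.range fun g => φ (ι g)) = ⊤ := by
    have : (Set.range fun g => φ (ι g)) = φ.toLinearMap '' Set.range ι := by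
      rw [← Set.range_comp]; rfl
    rw [this, Submodule.span_image, hspan, Submodule.map_top, LinearMap.range_eq_top]
    exact hφ
  obtain ⟨b, hb, hb1, hb2⟩ := exists_linearIndependent k (Set.range fun g => φ (ι g))
  rw [hsp] at hb1
  have hbf : Finite b := hb2.finite
  have := Fintype.ofFinite b
  have hbc : Fintype.card b ≤ n * n := by
    refine hb2.fintype_card_le_finrank.trans ?_
    rw [Module.finrank_linearMap]
    exact Nat.mul_le_mul hn hn
  obtain ⟨T, hT, hT'⟩ := exists_traces k V N hN
  have hpow : ∀ g, (φ β * φ (ι g)) ^ N = 1 := fun g => by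
    rw [← map_mul, ← map_pow]
    ext v
    exact h g v
  have hmem : ∀ g, ∀ x : b, LinearMap.trace k V (φ β * φ (ι g) * x) ∈ T := by
    rintro g ⟨_, hx⟩
    obtain ⟨g', rfl⟩ := hb hx
    have := hT' _ (hpow (g * g'))
    simpa only [map_mul, mul_assoc] using this
  let Θ : L ⧸ kerV ι V → (b → T) := fun x y => ⟨_, hmem x.out y⟩
  have hu : IsUnit (φ β) := by
    have := hpow 1
    rw [map_one, map_one, mul_one] at this
    exact IsUnit.of_pow_eq_one this hN.ne'
  have hinj : Function.Injective Θ := by
    intro x y hxy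
    have h1 : φ β * (φ (ι x.out) - φ (ι y.out)) = 0 := by
      refine eq_zero_of_trace _ fun z => ?_
      have hz : z ∈ Submodule.span k b := hb1 ▸ Submodule.mem_top
      induction hz using Submodule.span_induction with
      | mem z hz =>
        have := congrArg Subtype.val (congrFun hxy ⟨z, hz⟩)
        rw [mul_sub, sub_mul, map_sub]
        exact sub_eq_zero.2 this
      | zero => simp
      | add _ _ _ _ h1 h2 => rw [mul_add, map_add, h1, h2, add_zero]
      | smul c _ _ h1 => rw [mul_smul_comm, map_smul, h1, smul_zero]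
    have h2 : φ (ι x.out) = φ (ι y.out) := sub_eq_zero.1 (hu.mul_right_eq_zero.1 h1)
    rw [← x.out_eq', ← y.out_eq', QuotientGroup.eq, mem_kerV]
    intro v
    have h3 : ι y.out • v = ι x.out • v := (DFunLike.congr_fun h2 v).symm
    rw [map_mul, mul_smul, h3, ← mul_smul, ← map_mul, inv_mul_cancel, map_one, one_smul]
  have hfin : Finite (L ⧸ kerV ι V) := Finite.of_injective Θ hinj
  have hfi : (kerV ι V).FiniteIndex := finiteIndex_of_finite_quotient
  refine ⟨hfi, fun g => ?_⟩
  have hle : (kerV ι V).index ≤ (N ^ n) ^ (n * n) := by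
    rw [index_eq_card]
    refine (Nat.card_le_card_of_injective Θ hinj).trans ?_
    rw [Nat.card_eq_fintype_card, Fintype.card_fun, Fintype.card_coe]
    have h1 : T.card ≤ N ^ n := hT.trans (Nat.pow_le_pow_right hN hn)
    exact (Nat.pow_le_pow_left h1 _).trans (Nat.pow_le_pow_right (Nat.pow_pos hN) hbc)
  obtain ⟨c, hc⟩ := Nat.dvd_factorial (Nat.pos_of_ne_zero hfi.index_ne_zero) hle
  rw [bd, hc, pow_mul]
  exact pow_mem (pow_index_mem _ g) c

lemma general_case (ι : L →* A) (hspan : Submodule.span k (Set.range ι) = ⊤) (β : A) {N n : ℕ}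
    (hN : 0 < N) (m : ℕ) (hm : m ≤ n) :
    ∀ (V : Type u) [AddCommGroup V] [Module k V] [Module A V] [IsScalarTower k A V]
      [FiniteDimensional k V], Module.finrank k V ≤ m → (∀ g, ∀ v : V, (β * ι g) ^ N • v = v) →
      ∃ K : Subgroup L, K.Normal ∧ K.FiniteIndex ∧ (∀ g, g ^ bd N n ∈ K) ∧
        der K m ≤ kerV ι V := by
  induction m with
  | zero =>
    intro V _ _ _ _ _ hV _
    have : Subsingleton V := Module.finrank_zero_iff.1 (Nat.le_zero.1 hV)
    exact ⟨⊤, inferInstance, inferInstance, fun _ => mem_top _,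
      fun g _ => mem_kerV.2 fun v => Subsingleton.elim _ _⟩
  | succ m ih =>
    intro V _ _ _ _ _ hV h
    rcases subsingleton_or_nontrivial V with hs | hs
    · exact ⟨⊤, inferInstance, inferInstance, fun _ => mem_top _,
        fun g _ => mem_kerV.2 fun v => Subsingleton.elim _ _⟩
    by_cases hsimp : IsSimpleModule A V
    · obtain ⟨h1, h2⟩ := simple_case (k := k) ι hspan β hN V (hV.trans hm) h
      exact ⟨_, inferInstance, h1, h2, der_le _ _⟩
    obtain ⟨W, hW1, hW2⟩ : ∃ W : Submodule A V, W ≠ ⊥ ∧ W ≠ ⊤ := by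
      by_contra hc
      refine hsimp ?_
      rw [isSimpleModule_iff]
      refine ⟨fun W => ?_⟩
      by_contra hW
      exact hc ⟨W, fun h => hW (Or.inl h), fun h => hW (Or.inr h)⟩
    have hsum := (W.restrictScalars k).finrank_quotient_add_finrank
    have hfW : FiniteDimensional k W := inferInstanceAs (FiniteDimensional k (W.restrictScalars k))
    have hfQ : FiniteDimensional k (V ⧸ W) :=
      inferInstanceAs (FiniteDimensional k (V ⧸ W.restrictScalars k))
    have hlt : Module.finrank k (W.restrictScalars k) < Module.finrank k V :=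
      Submodule.finrank_lt fun h => hW2 ((Submodule.restrictScalars_eq_top_iff k A V).1 h)
    have hpos : Module.finrank k (W.restrictScalars k) ≠ 0 := fun h =>
      hW1 ((Submodule.restrictScalars_eq_bot_iff k A V).1 (Submodule.finrank_eq_zero.1 h))
    have e1 : Module.finrank k W ≤ m := by
      change Module.finrank k (W.restrictScalars k) ≤ m
      omega
    have e2 : Module.finrank k (V ⧸ W) ≤ m := by
      change Module.finrank k (V ⧸ W.restrictScalars k) ≤ m
      omega
    obtain ⟨K₁, n1, f1, p1, d1⟩ := ih (by omega) W e1 fun g v => Subtype.ext (h g v)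
    obtain ⟨K₂, n2, f2, p2, d2⟩ := ih (by omega) (V ⧸ W) e2 fun g v => by
      obtain ⟨v, rfl⟩ := W.mkQ_surjective v
      rw [← map_smul, h]
    refine ⟨K₁ ⊓ K₂, inferInstance, inferInstance, fun g => ⟨p1 g, p2 g⟩, ?_⟩
    have key : ∀ a ∈ der (K₁ ⊓ K₂) m, ∀ b ∈ der (K₁ ⊓ K₂) m, ∀ v : V,
        ι (a * b) • v = ι a • v + ι b • v - v := by
      intro a ha b hb v
      have h1 : ι b • v - v ∈ W := by
        rw [← Submodule.Quotient.eq]
        exact mem_kerV.1 (d2 (der_mono inf_le_right m hb)) (W.mkQ v)
      have h2 : ι a • (ι b • v - v) = ι b • v - v :=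
        congrArg Subtype.val (mem_kerV.1 (d1 (der_mono inf_le_left m ha)) ⟨_, h1⟩)
      rw [smul_sub, sub_eq_iff_eq_add] at h2
      rw [map_mul, mul_smul, h2]
      abel
    refine commutator_le.2 fun a ha b hb => mem_kerV.2 fun v => ?_
    have h1 : ι (a * b) • ι (b * a)⁻¹ • v = ι (b * a) • ι (b * a)⁻¹ • v := by
      rw [key a ha b hb, key b hb a ha, add_comm]
    rw [← mul_smul, ← mul_smul, ← map_mul, ← map_mul, mul_inv_cancel, map_one, one_smul] at h1
    rw [commutatorElement_def]
    convert h1 using 3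
    group

end modules

/-- Matrix form. -/
lemma matrix_case {L : Type*} [Group L] {k : Type u} [Field k] [IsAlgClosed k] {n N : ℕ}
    (hN : 0 < N) (ρ : L →* Matrix (Fin n) (Fin n) k) (z : Matrix (Fin n) (Fin n) k)
    (hz : z ∈ Submodule.span k (Set.range ρ)) (h : ∀ g, (z * ρ g) ^ N = 1) :
    ∃ K : Subgroup L, K.Normal ∧ K.FiniteIndex ∧ (∀ g, g ^ bd N n ∈ K) ∧ der K n ≤ ρ.ker := by
  classical
  let φ : MonoidAlgebra k L →ₐ[k] Matrix (Fin n) (Fin n) k := MonoidAlgebra.lift k _ L ρ
  have hspan : Submodule.span k (Set.range (MonoidAlgebra.of k L)) = ⊤ := by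
    refine eq_top_iff.2 fun x _ => ?_
    induction x using MonoidAlgebra.induction_on with
    | of g => exact Submodule.subset_span ⟨g, rfl⟩
    | add a b ha hb => exact add_mem (ha trivial) (hb trivial)
    | smul c a ha => exact Submodule.smul_mem _ c (ha trivial)
  have hφ : ∀ g, φ (MonoidAlgebra.of k L g) = ρ g := fun g => by simp [φ]
  obtain ⟨β, hβ⟩ : ∃ β, φ β = z := by
    have : Submodule.span k (Set.range ρ) ≤ LinearMap.range φ.toLinearMap :=
      Submodule.span_le.2 fun _ ⟨g, hg⟩ => ⟨_, (hφ g).trans hg⟩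
    exact this hz
  let _ : Module (MonoidAlgebra k L) (Fin n → k) := Module.compHom _ φ.toRingHom
  have hsm : ∀ (a : MonoidAlgebra k L) (v : Fin n → k), a • v = (φ a).mulVec v := fun _ _ => rfl
  have : IsScalarTower k (MonoidAlgebra k L) (Fin n → k) := ⟨fun c a v => by
    rw [hsm, hsm, map_smul, Matrix.smul_mulVec]⟩
  obtain ⟨K, h1, h2, h3, h4⟩ := general_case (k := k) (MonoidAlgebra.of k L) hspan β hN n le_rfl
    (Fin n → k) (by simp) fun g v => by
      rw [hsm, map_pow, map_mul, hβ, hφ, h, Matrix.one_mulVec]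
  refine ⟨K, h1, h2, h3, fun g hg => ?_⟩
  have h5 := mem_kerV.1 (h4 hg)
  rw [MonoidHom.mem_ker]
  refine Matrix.toLin'.injective (LinearMap.ext fun v => ?_)
  have := h5 v
  rw [hsm, hφ] at this
  simpa using this

end Pool.Agent.MP_3312ae_al.H59
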