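import Pool.Agent.MP_3312ae_al.H59.Ring

/-! Finitely generated torsion groups of matrices over commutative rings are finite. -/

namespace Pool.Agent.MP_3312ae_al.H59

open Subgroup

universe u

variable {n : ℕ}

lemma eq_one_of_cong {A : Type*} [CommRing A] [IsDomain A] (P : Ideal A) [hP : P.IsPrime]
    (g : Matrix (Fin n) (Fin n) A) (r : ℕ) (hr : (r : A) ∉ P) (hg : g ^ r = 1)
    (h : ∀ i j, (g - 1) i j ∈ P) : g = 1 := by
  let π := Ideal.Quotient.mk P
  have h1 : π.mapMatrix g = 1 := by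
    rw [← sub_eq_zero, ← map_one π.mapMatrix, ← map_sub]
    ext i j
    exact Ideal.Quotient.eq_zero_iff_mem.2 (h i j)
  let s := ∑ i ∈ Finset.range r, g ^ i
  have h2 : s * (g - 1) = 0 := by rw [geom_sum_mul, hg, sub_self]
  have h3 : π.mapMatrix s = (r : A ⧸ P) • (1 : Matrix (Fin n) (Fin n) (A ⧸ P)) := by
    simp only [s, map_sum, map_pow, h1, one_pow, Finset.sum_const, Finset.card_range]
    rw [Nat.cast_smul_eq_nsmul]
  have h4 : s.det ≠ 0 := by
    intro h0
    have h5 : π s.det = 0 := by rw [h0, map_zero]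
    rw [RingHom.map_det, h3, Matrix.det_smul, Matrix.det_one, mul_one] at h5
    have h6 : (r : A ⧸ P) = 0 := pow_eq_zero_iff'.1 h5 |>.1
    exact hr (Ideal.Quotient.eq_zero_iff_mem.1 ((map_natCast π r).trans h6))
  have h7 : s.det • (g - 1) = 0 := by
    rw [← Matrix.one_mul (g - 1), ← Matrix.smul_mul, ← Matrix.adjugate_mul, Matrix.mul_assoc, h2,
      Matrix.mul_zero]
  exact sub_eq_zero.1 ((smul_eq_zero.1 h7).resolve_left h4)

lemma jac_int : IsJacobsonRing ℤ := by
  refine isJacobsonRing_iff_prime_eq.2 fun P hP => ?_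
  by_cases h : P = ⊥
  · subst h
    refine eq_bot_iff.2 fun x hx => ?_
    have h1 := Int.isUnit_iff.1 (Ideal.mem_jacobson_bot.1 hx x)
    have h2 : x * x = 0 := by
      rcases h1 with h1 | h1 <;> nlinarith [mul_self_nonneg x]
    exact mul_self_eq_zero.1 h2
  · have := hP.isMaximal h
    exact Ideal.jacobson_eq_self_of_isMaximal

lemma ft_quot {A : Type*} [CommRing A] [Algebra.FiniteType ℤ A] (P : Ideal A) :
    @Algebra.FiniteType ℤ (A ⧸ P) _ _ (Ring.toIntAlgebra _) :=
  Algebra.FiniteType.of_surjective (Ideal.Quotient.mk P).toIntAlgHom Ideal.Quotient.mk_surjective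

lemma finite_field (F : Type*) [Field F] [Algebra.FiniteType ℤ F] : Finite F := by
  have := jac_int
  have hf : Module.Finite ℤ F := finite_of_finite_type_of_isJacobsonRing ℤ F
  obtain ⟨p, hp⟩ := CharP.exists F
  rcases CharP.char_is_prime_or_zero F p with h | rfl
  · refine Module.finite_of_fg_torsion F fun x => ⟨⟨p, mem_nonZeroDivisors_of_ne_zero ?_⟩, ?_⟩
    · exact_mod_cast h.ne_zero
    · change (p : ℤ) • x = 0
      rw [zsmul_eq_mul, Int.cast_natCast, CharP.cast_eq_zero, zero_mul]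
  · have : CharZero F := CharP.charP_to_charZero F
    have h1 : IsField ℤ := (Algebra.IsIntegral.isField_iff_isField (R := ℤ) (S := F)
      (algebraMap ℤ F).injective_int).2 (Field.toIsField F)
    exact absurd h1 Int.not_isField

lemma exists_max {A : Type*} [CommRing A] [IsDomain A] [Algebra.FiniteType ℤ A] (r : A)
    (hr : r ≠ 0) : ∃ P : Ideal A, P.IsPrime ∧ r ∉ P ∧ Finite (A ⧸ P) := by
  have := jac_int
  have : IsJacobsonRing A := isJacobsonRing_of_finiteType (A := ℤ)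
  have h1 : (⊥ : Ideal A).jacobson = ⊥ := IsJacobsonRing.out this Ideal.isPrime_bot.isRadical
  have h2 : r ∉ (⊥ : Ideal A).jacobson := by rw [h1]; exact hr
  rw [Ideal.jacobson, Ideal.mem_sInf] at h2
  push Not at h2
  obtain ⟨P, ⟨-, hP⟩, hrP⟩ := h2
  let _ := Ideal.Quotient.field P
  exact ⟨P, hP.isPrime, hrP, @finite_field _ _ (ft_quot P)⟩

lemma exists_pow_cong {T : Type*} [Group T] {A : Type*} [CommRing A]
    (ρ : T →* Matrix (Fin n) (Fin n) A) (P : Ideal A) [Finite (A ⧸ P)] :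
    ∃ c, 0 < c ∧ ∀ g, g ^ c ∈ cong ρ P := by
  have h1 : (red (Ideal.Quotient.mk P) ρ).toHomUnits.ker = cong ρ P := by
    ext g
    simp [cong, MonoidHom.mem_ker]
  have h2 : (cong ρ P).FiniteIndex := h1 ▸ finiteIndex_ker _
  exact ⟨_, Nat.pos_of_ne_zero h2.index_ne_zero, pow_index_mem _⟩

lemma exists_char {A : Type*} [CommRing A] (P : Ideal A) [hP : P.IsPrime] [Finite (A ⧸ P)] :
    ∃ p : ℕ, p.Prime ∧ (p : A) ∈ P ∧ ∀ r : ℕ, (r : A) ∈ P → p ∣ r := by
  obtain ⟨p, hp⟩ := CharP.exists (A ⧸ P)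
  have key : ∀ r : ℕ, (r : A) ∈ P ↔ p ∣ r := fun r => by
    rw [← CharP.cast_eq_zero_iff (A ⧸ P) p r, ← Ideal.Quotient.eq_zero_iff_mem, map_natCast]
  exact ⟨p, CharP.char_is_prime (A ⧸ P) p, (key p).2 dvd_rfl, fun r => (key r).1⟩

lemma exp_domain {T : Type*} [Group T] (hT : ∀ g : T, IsOfFinOrder g) {A : Type*} [CommRing A]
    [IsDomain A] [Algebra.FiniteType ℤ A] (ρ : T →* Matrix (Fin n) (Fin n) A) :
    ∃ N, 0 < N ∧ ∀ g, ρ g ^ N = 1 := by
  obtain ⟨P, hP, -, hfin⟩ := exists_max (1 : A) one_ne_zero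
  obtain ⟨p, hp, -, hp2⟩ := exists_char P
  obtain ⟨c, hc, hc'⟩ := exists_pow_cong ρ P
  have key : ∀ g ∈ cong ρ P, ∃ a, ρ g ^ p ^ a = 1 := by
    intro g hg
    obtain ⟨r, hr, hr'⟩ := (hT g).exists_pow_eq_one
    obtain ⟨a, r', h1, rfl⟩ := Nat.exists_eq_pow_mul_and_not_dvd hr.ne' p hp.ne_one
    refine ⟨a, ?_⟩
    rw [← map_pow]
    refine eq_one_of_cong P _ r' (fun h => h1 (hp2 _ h)) ?_ (mem_cong.1 (pow_mem hg _))
    rw [← map_pow, ← pow_mul, hr', map_one]
  by_cases h0 : (p : A) = 0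
  · have := Fact.mk hp
    have : CharP A p := (CharP.charP_iff_prime_eq_zero hp).2 h0
    refine ⟨c * p ^ n, Nat.mul_pos hc (Nat.pow_pos hp.pos), fun g => ?_⟩
    obtain ⟨a, ha⟩ := key _ (hc' g)
    rw [pow_mul, ← map_pow]
    set x := ρ (g ^ c)
    rcases Nat.eq_zero_or_pos n with rfl | hn
    · exact Subsingleton.elim _ _
    have : Nonempty (Fin n) := ⟨⟨0, hn⟩⟩
    have e : ∀ b, (x - 1) ^ p ^ b = x ^ p ^ b - 1 := fun b => by
      rw [sub_pow_char_pow_of_commute _ _ (Commute.one_right x), one_pow]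
    have h1 : IsNilpotent (x - 1) := ⟨p ^ a, by rw [e, ha, sub_self]⟩
    have h2 := (Matrix.isNilpotent_charpoly_sub_pow_of_isNilpotent h1).eq_zero
    have h3 := Matrix.aeval_self_charpoly (x - 1)
    rw [sub_eq_zero.1 h2, map_pow, Polynomial.aeval_X, Fintype.card_fin] at h3
    rw [← sub_eq_zero, ← e]
    exact pow_eq_zero_of_le (Nat.lt_pow_self hp.one_lt).le h3
  · obtain ⟨Q, hQ, hpQ, hfin'⟩ := exists_max (p : A) h0
    obtain ⟨d, hd, hd'⟩ := exists_pow_cong ρ Q
    refine ⟨c * d, Nat.mul_pos hc hd, fun g => ?_⟩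
    have h1 : g ^ (c * d) ∈ cong ρ P := by rw [pow_mul]; exact pow_mem (hc' g) _
    have h2 : g ^ (c * d) ∈ cong ρ Q := by rw [pow_mul]; exact hd' _
    obtain ⟨a, ha⟩ := key _ h1
    rw [← map_pow]
    refine eq_one_of_cong Q _ (p ^ a) (fun h => hpQ ?_) ha (mem_cong.1 h2)
    rw [Nat.cast_pow] at h
    exact hQ.mem_of_pow_mem a h

lemma fi_of_le_der {T : Type*} [Group T] [Group.FG T] (hT : ∀ g : T, IsOfFinOrder g)
    (K : Subgroup T) [K.Normal] [K.FiniteIndex] (m : ℕ) {B : Subgroup T} (h : der K m ≤ B) :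
    B.FiniteIndex :=
  have := fi_der hT K m
  finiteIndex_of_le h

lemma fi_prime {T : Type*} [Group T] [Group.FG T] (hT : ∀ g : T, IsOfFinOrder g)
    {A : Type u} [CommRing A] [Algebra.FiniteType ℤ A] (ρ : T →* Matrix (Fin n) (Fin n) A)
    (P : Ideal A) [P.IsPrime] : (cong ρ P).FiniteIndex := by
  obtain ⟨N, hN, hN'⟩ := @exp_domain _ _ _ hT _ _ _ (ft_quot P) (red (Ideal.Quotient.mk P) ρ)
  obtain ⟨k, _, _, φ, hφ⟩ := exists_closed (A ⧸ P) ⊥
  obtain ⟨K, h1, h2, -, h3⟩ := matrix_case hN (red φ (red (Ideal.Quotient.mk P) ρ)) 1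
    (Submodule.subset_span ⟨1, map_one _⟩) fun g => by
      rw [one_mul]
      change φ.mapMatrix _ ^ N = 1
      rw [← map_pow, hN', map_one]
  refine fi_of_le_der hT K n (h3.trans fun g hg => ?_)
  rw [mem_ker_red] at hg
  rw [cong, MonoidHom.mem_ker, ← sub_eq_zero]
  ext i j
  exact (hφ _).1 (hg i j)

lemma fi_finiteType {T : Type*} [Group T] [Group.FG T] (hT : ∀ g : T, IsOfFinOrder g)
    {A : Type u} [CommRing A] [Algebra.FiniteType ℤ A] (ρ : T →* Matrix (Fin n) (Fin n) A) :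
    ρ.ker.FiniteIndex := by
  have : IsNoetherianRing A := Algebra.FiniteType.isNoetherianRing ℤ A
  have hfin : Finite (minimalPrimes A) := (minimalPrimes.finite_of_isNoetherianRing A).to_subtype
  obtain ⟨m, hm⟩ := der_cong_nil ρ _ (IsNoetherianRing.isNilpotent_nilradical A)
  have h1 : (⨅ P : minimalPrimes A, cong ρ P.1).FiniteIndex :=
    finiteIndex_iInf fun P => by
      have := Ideal.IsMinimalPrime.isPrime P.2
      exact fi_prime hT ρ P.1
  have h2 : (⨅ P : minimalPrimes A, cong ρ P.1) ≤ cong ρ (nilradical A) := by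
    intro g hg
    rw [mem_cong]
    intro i j
    have h3 := Ideal.sInf_minimalPrimes (I := (⊥ : Ideal A))
    rw [nilradical, Ideal.zero_eq_bot, ← h3, Ideal.mem_sInf]
    intro P hP
    exact mem_cong.1 (mem_iInf.1 hg ⟨P, hP⟩) i j
  have : (cong ρ (nilradical A)).FiniteIndex := finiteIndex_of_le h2
  exact fi_of_le_der hT _ m hm

/-- The theorem of Schur over commutative rings. -/
theorem schur {T : Type*} [Group T] [hfg : Group.FG T] (hT : ∀ g : T, IsOfFinOrder g)
    {R : Type u} [CommRing R] (ρ : T →* Matrix (Fin n) (Fin n) R)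
    (hρ : Function.Injective ρ) : Finite T := by
  classical
  obtain ⟨S, hS⟩ := hfg.out
  let E : Set R := ⋃ s ∈ (S : Set T), Set.range fun p : Fin n × Fin n => ρ s p.1 p.2
  have hE : E.Finite := S.finite_toSet.biUnion fun _ _ => Set.finite_range _
  let A := Algebra.adjoin ℤ E
  have : Algebra.FiniteType ℤ A := Algebra.FiniteType.adjoin_of_finite hE
  have hmul : ∀ a b : Matrix (Fin n) (Fin n) R, (∀ i j, a i j ∈ A) → (∀ i j, b i j ∈ A) →
      ∀ i j, (a * b) i j ∈ A := fun a b ha hb i j => by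
    rw [Matrix.mul_apply]
    exact sum_mem fun l _ => mul_mem (ha _ _) (hb _ _)
  have hone : ∀ i j, (1 : Matrix (Fin n) (Fin n) R) i j ∈ A := fun i j => by
    rw [Matrix.one_apply]
    split_ifs
    exacts [one_mem _, zero_mem _]
  have hmem : ∀ g, ∀ i j, ρ g i j ∈ A := by
    intro g
    have hg : g ∈ closure (S : Set T) := hS ▸ mem_top g
    induction hg using closure_induction with
    | mem x hx =>
      exact fun i j => Algebra.subset_adjoin (Set.mem_biUnion hx ⟨(i, j), rfl⟩)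
    | one => rw [map_one]; exact hone
    | mul x y _ _ hx hy => rw [map_mul]; exact hmul _ _ hx hy
    | inv x _ hx =>
      obtain ⟨r, hr, hr'⟩ := (hT x).exists_pow_eq_one
      have h1 : x⁻¹ = x ^ (r - 1) := by
        rw [inv_eq_iff_mul_eq_one, ← pow_succ', Nat.sub_add_cancel hr, hr']
      rw [h1, map_pow]
      induction (r - 1) with
      | zero => rw [pow_zero]; exact hone
      | succ t ih => rw [pow_succ]; exact hmul _ _ ih hx
  let ρ₀ : T →* Matrix (Fin n) (Fin n) A :=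
    { toFun := fun g => Matrix.of fun i j => ⟨ρ g i j, hmem g i j⟩
      map_one' := by
        ext i j
        by_cases h : i = j <;> simp [Matrix.one_apply, h]
      map_mul' := fun a b => by
        ext i j
        simp [Matrix.mul_apply] }
  have h1 := fi_finiteType hT ρ₀
  have h2 : ρ₀.ker = ⊥ := by
    rw [MonoidHom.ker_eq_bot_iff]
    intro a b hab
    apply hρ
    ext i j
    exact congrArg Subtype.val (congrFun (congrFun hab i) j)
  rw [h2] at h1
  exact Nat.finite_of_card_ne_zero (by simpa using h1.index_ne_zero)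

end Pool.Agent.MP_3312ae_al.H59
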