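import Mathlib

/-! Compact groups have enough finite dimensional unitary representations. -/

open MeasureTheory InnerProductSpace Module.End
open scoped ENNReal

namespace Pool.Agent.MP_3312ae_al.H59

universe u

/-- The unitary group. -/
abbrev U (n : ℕ) := Matrix.unitaryGroup (Fin n) ℂ

/-- Unitary representations separate points (copy of the proof of helper66). -/
def PWStmt : Prop :=
  ∀ (G : Type u) [Group G] [TopologicalSpace G] [IsTopologicalGroup G] [CompactSpace G] [T2Space G]
    (g : G), g ≠ 1 → ∃ (n : ℕ) (ρ : G →* U n), Continuous ρ ∧ ρ g ≠ 1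

section abstract

variable {G : Type u} [Group G] [TopologicalSpace G] {H : Type u} [NormedAddCommGroup H]
  [InnerProductSpace ℂ H]

omit [TopologicalSpace G] in
lemma inner_move (π : G →* (H ≃ₗᵢ[ℂ] H)) (h : G) (v w : H) :
    inner ℂ (π h v) w = inner ℂ v (π h⁻¹ w) := by
  have : π h (π h⁻¹ w) = w := by
    change (π h * π h⁻¹) w = w
    rw [← map_mul]
    simp
  rw [← (π h).inner_map_map v (π h⁻¹ w), this]

/-- a finite dimensional invariant subspace gives a unitary matrix representation -/
lemma rep_of_inv (π : G →* (H ≃ₗᵢ[ℂ] H)) (hπ : ∀ v, Continuous fun x => π x v)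
    (E : Submodule ℂ H) [FiniteDimensional ℂ E] (hE : ∀ x, ∀ v ∈ E, π x v ∈ E) (g : G) (v : H)
    (hv : v ∈ E) (hg : π g v ≠ v) : ∃ (n : ℕ) (ρ : G →* U n), Continuous ρ ∧ ρ g ≠ 1 := by
  let b := stdOrthonormalBasis ℂ E
  have hsum : ∀ w ∈ E, w = ∑ i, inner ℂ (b i : H) w • (b i : H) := by
    intro w hw
    have := congrArg Subtype.val (b.sum_repr' ⟨w, hw⟩)
    simpa using this.symm
  let M : G → Matrix (Fin (Module.finrank ℂ E)) (Fin (Module.finrank ℂ E)) ℂ :=
    fun h i j => inner ℂ (b i : H) (π h (b j))
  have hone : M 1 = 1 := by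
    ext i j
    have := orthonormal_iff_ite.1 b.orthonormal i j
    simpa [M, Matrix.one_apply] using this
  have hmul : ∀ h k, M (h * k) = M h * M k := by
    intro h k
    ext i j
    simp only [M, Matrix.mul_apply, map_mul]
    change inner ℂ (b i : H) (π h (π k (b j))) = _
    conv_lhs => rw [hsum _ (hE k _ (b j).2)]
    simp only [map_sum, map_smul, inner_sum, inner_smul_right]
    exact Finset.sum_congr rfl fun l _ => mul_comm _ _
  have hstar : ∀ h, star (M h) = M h⁻¹ := by
    intro h
    ext i j
    simp only [M, Matrix.star_apply]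
    rw [← inner_move, ← inner_conj_symm]
    simp
  let ρ : G →* U (Module.finrank ℂ E) :=
    { toFun := fun h => ⟨M h, by
        rw [Matrix.mem_unitaryGroup_iff, hstar, ← hmul, mul_inv_cancel, hone]⟩
      map_one' := Subtype.ext hone
      map_mul' := fun h k => Subtype.ext (hmul h k) }
  refine ⟨_, ρ, ?_, fun h1 => hg ?_⟩
  · refine Continuous.subtype_mk ?_ _
    exact continuous_matrix fun i j => continuous_const.inner (hπ _)
  · have h2 : M g = 1 := congrArg Subtype.val h1
    have h3 : ∀ j, π g (b j) = b j := by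
      intro j
      rw [hsum _ (hE g _ (b j).2)]
      have : ∀ i, inner ℂ (b i : H) (π g (b j)) = if i = j then 1 else 0 := fun i => by
        simpa [M, Matrix.one_apply] using congrFun (congrFun h2 i) j
      simp [this]
    rw [hsum v hv]
    simp only [map_sum, map_smul, h3]

variable [IsTopologicalGroup G] [CompactSpace G] [CompleteSpace H]

/-- a strongly continuous unitary representation of a compact group that moves a vector at `g`
has a finite dimensional subrepresentation that is nontrivial at `g` -/
lemma rep_of_move (π : G →* (H ≃ₗᵢ[ℂ] H)) (hπ : ∀ v, Continuous fun x => π x v) (g : G) (φ : H)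
    (hg : π g⁻¹ φ ≠ φ) : ∃ (n : ℕ) (ρ : G →* U n), Continuous ρ ∧ ρ g ≠ 1 := by
  borelize G
  let μ : Measure G := Measure.haarMeasure ⊤
  have hμ : IsProbabilityMeasure μ := ⟨Measure.haarMeasure_self⟩
  let R : G → H →L[ℂ] H := fun x => rankOne ℂ (π x φ) (π x φ)
  have hR : Continuous R :=  by
    have h1 : Continuous fun x => (innerSL ℂ (π x φ) : H →L[ℂ] ℂ) :=
      (innerSL ℂ).continuous.comp (hπ φ)
    exact ((ContinuousLinearMap.smulRightL ℂ H H).continuous.comp h1).clm_apply (hπ φ)
  have hRi : Integrable R μ :=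
    hR.integrable_of_hasCompactSupport (HasCompactSupport.of_compactSpace _)
  let T : H →L[ℂ] H := ∫ x, R x ∂μ
  have hT : ∀ v, T v = ∫ x, inner ℂ (π x φ) v • π x φ ∂μ := fun v =>
    ContinuousLinearMap.integral_apply hRi v
  have hi : ∀ v, Integrable (fun x => inner ℂ (π x φ) v • π x φ) μ := fun v =>
    (((hπ φ).inner continuous_const).smul (hπ φ)).integrable_of_hasCompactSupport
      (HasCompactSupport.of_compactSpace _)
  have hc : IsCompactOperator T := by
    have hcl : IsClosed ((compactOperator (RingHom.id ℂ) H H : Submodule ℂ (H →L[ℂ] H)) :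
        Set (H →L[ℂ] H)) := isClosed_setOfPred_isCompactOperator
    refine Convex.integral_mem (s := ((compactOperator (RingHom.id ℂ) H H : Submodule ℂ (H →L[ℂ] H)) :
        Set (H →L[ℂ] H))) ((compactOperator (RingHom.id ℂ) H H).restrictScalars ℝ).convex hcl
      (Filter.Eventually.of_forall fun x => ?_) hRi
    exact (isCompactOperator_of_locallyCompactSpace_dom (innerSL ℂ (π x φ))).clm_comp
      (ContinuousLinearMap.toSpanSingleton ℂ (π x φ))
  have hs : T.IsSymmetric := by
    intro v w
    simp only [ContinuousLinearMap.coe_coe]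
    rw [← inner_conj_symm, hT, hT, ← integral_inner (hi v), ← integral_inner (hi w),
      ← integral_conj]
    refine integral_congr_ae (Filter.Eventually.of_forall fun x => ?_)
    simp [inner_smul_right, mul_comm]
  have hcomm : ∀ h v, T (π h v) = π h (T v) := by
    intro h v
    rw [hT, hT, ← LinearIsometryEquiv.coe_toLinearIsometry (π h),
      ← (π h).toLinearIsometry.integral_comp_comm, ← integral_mul_left_eq_self _ h]
    refine integral_congr_ae (Filter.Eventually.of_forall fun x => ?_)
    simp
  have hker : ∀ v, T v = 0 → ∀ x, inner ℂ (π x φ) v = 0 := by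
    intro v hv x
    have h1 : ∫ x, ‖inner ℂ (π x φ) v‖ ^ 2 ∂μ = 0 := by
      have h2 : inner ℂ v (T v) = ((∫ x, ‖inner ℂ (π x φ) v‖ ^ 2 ∂μ : ℝ) : ℂ) := by
        rw [hT, ← integral_inner (hi v), ← integral_complex_ofReal]
        refine integral_congr_ae (Filter.Eventually.of_forall fun x => ?_)
        simp only [inner_smul_right]
        rw [← inner_conj_symm v, Complex.mul_conj']
        simp
      rw [hv, inner_zero_right] at h2
      exact_mod_cast h2.symm
    have hcont : Continuous fun x => ‖inner ℂ (π x φ) v‖ ^ 2 :=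
      ((hπ φ).inner continuous_const).norm.pow 2
    by_contra hx
    exact (hcont.integral_pos_of_hasCompactSupport_nonneg_nonzero (μ := μ) (x := x)
      (HasCompactSupport.of_compactSpace _) (fun x => by positivity) (by simpa using hx)).ne' h1
  by_contra hno
  have hfix : ∀ c : ℂ, c ≠ 0 → ∀ v ∈ eigenspace T.toLinearMap c, π g v = v := by
    intro c hc0 v hv
    by_contra hne
    have := ContinuousLinearMap.finite_dimensional_eigenspace hc c hc0
    refine hno (rep_of_inv π hπ (eigenspace T.toLinearMap c) (fun x w hw => ?_) g v hv hne)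
    rw [mem_eigenspace_iff] at hw ⊢
    simp only [ContinuousLinearMap.coe_coe] at hw ⊢
    rw [hcomm, hw, map_smul]
  have hmem : π g⁻¹ φ - φ ∈ (⨆ c, eigenspace T.toLinearMap c)ᗮ := by
    rw [← Submodule.iInf_orthogonal, Submodule.mem_iInf]
    intro c
    rw [Submodule.mem_orthogonal']
    intro v hv
    rw [inner_sub_left]
    by_cases hc0 : c = 0
    · have hv0 : T v = 0 := by simpa [hc0] using hv
      have h1 := hker v hv0 1
      rw [hker v hv0 g⁻¹]
      simpa using h1
    · rw [inner_move, inv_inv, hfix c hc0 v hv, sub_self]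
  rw [ContinuousLinearMap.orthogonalComplement_iSup_eigenspaces_eq_bot hc hs, Submodule.mem_bot,
    sub_eq_zero] at hmem
  exact hg hmem

end abstract

/-- left translation on the space of square integrable functions -/
noncomputable def transl {G : Type u} [Group G] [MeasurableSpace G] [MeasurableMul G]
    (μ : Measure G) [μ.IsMulLeftInvariant] : G →* (Lp ℂ 2 μ ≃ₗᵢ[ℂ] Lp ℂ 2 μ) where
  toFun h :=
    { toFun := fun f => DomMulAct.mk h⁻¹ • f
      invFun := fun f => DomMulAct.mk h • f
      map_add' := fun f f' => smul_add _ f f'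
      map_smul' := fun c f => smul_comm _ c f
      left_inv := fun f => by
        simp only [smul_smul]
        rw [← DomMulAct.mk_mul]
        simp
      right_inv := fun f => by
        simp only [smul_smul]
        rw [← DomMulAct.mk_mul]
        simp
      norm_map' := fun f => DomMulAct.norm_smul_Lp _ f }
  map_one' := by
    ext1 f
    simp
  map_mul' h k := by
    ext1 f
    simp [smul_smul]

theorem pw : PWStmt.{u} := by
  intro G _ _ _ _ _ g hg
  borelize G
  let μ : Measure G := Measure.haarMeasure ⊤
  obtain ⟨f, hf0, hf1, -⟩ := exists_continuous_zero_one_of_isClosed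
    (isClosed_singleton (x := (1 : G))) (isClosed_singleton (x := g))
    (Set.disjoint_singleton.2 hg.symm)
  let F : C(G, ℂ) := ⟨fun x => f x, Complex.continuous_ofReal.comp f.continuous⟩
  have : Fact ((2 : ℝ≥0∞) ≠ ∞) := ⟨by simp⟩
  refine rep_of_move (transl μ) (fun v => ?_) g (ContinuousMap.toLp 2 μ ℂ F) fun h => ?_
  · exact (DomMulAct.continuous_mk.comp continuous_inv).smul continuous_const
  · have h1 : (fun x => F (g * x)) =ᵐ[μ] F := by
      have h2 := ContinuousMap.coeFn_toLp (p := 2) (𝕜 := ℂ) μ F
      have h3 := DomMulAct.smul_Lp_ae_eq (DomMulAct.mk g⁻¹⁻¹) (ContinuousMap.toLp 2 μ ℂ F)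
      have h4 := (measurePreserving_mul_left μ g).quasiMeasurePreserving.ae_eq_comp h2
      have h5 : DomMulAct.mk g⁻¹⁻¹ • ContinuousMap.toLp 2 μ ℂ F = ContinuousMap.toLp 2 μ ℂ F := h
      rw [h5] at h3
      filter_upwards [h2, h3, h4] with x a2 a3 a4
      simp only [Function.comp, inv_inv, Equiv.symm_apply_apply, smul_eq_mul] at a3 a4
      rw [← a4, ← a3, a2]
    have h6 := (Continuous.ae_eq_iff_eq μ (by fun_prop) F.continuous).1 h1
    have h7 := congrFun h6 1
    have h8 : f g = 1 := hf1 rfl
    have h9 : f 1 = 0 := hf0 rfl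
    simp [F, h8, h9] at h7

end Pool.Agent.MP_3312ae_al.H59
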