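import Pool.Agent.MP_3312ae_al.H59.Ring
import Pool.Agent.MP_3312ae_al.H59.PW

/-! Compact torsion groups are totally disconnected; the Baire category step. -/

namespace Pool.Agent.MP_3312ae_al.H59

open Topology Filter Set
open scoped ComplexOrder

universe u

lemma eq_top_of_nhds {C : Type*} [Group C] [TopologicalSpace C] [IsTopologicalGroup C]
    [PreconnectedSpace C] (H : Subgroup C) (h : (H : Set C) ∈ 𝓝 1) : H = ⊤ := by
  have h1 := H.isOpen_of_mem_nhds h
  rcases isClopen_iff.1 ⟨H.isClosed_of_isOpen h1, h1⟩ with h2 | h2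
  · exact absurd H.one_mem (by rw [← SetLike.mem_coe, h2]; exact notMem_empty _)
  · exact SetLike.coe_injective h2

lemma exists_coset {C : Type*} [Group C] [TopologicalSpace C] [IsTopologicalGroup C]
    [CompactSpace C] [T2Space C] (hT : ∀ g : C, IsOfFinOrder g) :
    ∃ (y : C) (N : ℕ), 0 < N ∧ ∀ᶠ w in 𝓝 (1 : C), (y * w) ^ N = 1 := by
  obtain ⟨N, y, hy⟩ := nonempty_interior_of_iUnion_of_closed
    (f := fun N : ℕ => {g : C | g ^ (N + 1) = 1})
    (fun N => isClosed_eq (continuous_pow _) continuous_const) (eq_univ_of_forall fun g => by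
      obtain ⟨r, hr, hr'⟩ := (hT g).exists_pow_eq_one
      exact mem_iUnion.2 ⟨r - 1, by rw [mem_ofPred_eq, Nat.sub_add_cancel hr, hr']⟩)
  refine ⟨y, N + 1, N.succ_pos, ?_⟩
  have h1 : Tendsto (fun w => y * w) (𝓝 1) (𝓝 y) := by
    simpa using (continuous_const_mul y).tendsto 1
  exact h1 (mem_interior_iff_mem_nhds.1 hy)

lemma conn_trivial {C : Type*} [Group C] [TopologicalSpace C] [IsTopologicalGroup C]
    [CompactSpace C] [T2Space C] [PreconnectedSpace C] (hT : ∀ g : C, IsOfFinOrder g) {n : ℕ}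
    (ρ : C →* U n) (hρ : Continuous ρ) (g : C) : ρ g = 1 := by
  classical
  let r : C →* Matrix (Fin n) (Fin n) ℂ := (Submonoid.subtype _).comp ρ
  have hr : Continuous r := continuous_subtype_val.comp hρ
  have hstar : ∀ c, (r c).conjTranspose = r c⁻¹ := fun c => by
    change _ = ((ρ c⁻¹ : U n) : Matrix (Fin n) (Fin n) ℂ)
    rw [map_inv]
    rfl
  obtain ⟨y, N, hN, hy⟩ := exists_coset hT
  obtain ⟨T, -, hT'⟩ := exists_traces ℂ (Fin n → ℂ) N hN
  have htr : ∀ c : C, c ^ N = 1 → (r c).trace ∈ T := fun c hc => by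
    have := hT' (Matrix.toLinAlgEquiv' (r c)) (by rw [← map_pow, ← map_pow, hc, map_one, map_one])
    rwa [show Matrix.toLinAlgEquiv' (r c) = Matrix.toLin' (r c) from rfl,
      Matrix.trace_toLin'_eq] at this
  have hconst : ∀ᶠ w in 𝓝 (1 : C), (r (y * w)).trace = (r y).trace := by
    have hc : Continuous fun w => (r (y * w)).trace := (hr.comp (continuous_const_mul y)).matrix_trace
    have hcl : IsClosed ((T.erase (r y).trace : Finset ℂ) : Set ℂ) := (Finset.finite_toSet _).isClosed
    have h1 : ∀ᶠ w in 𝓝 (1 : C), (r (y * w)).trace ∉ ((T.erase (r y).trace : Finset ℂ) : Set ℂ) :=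
      hc.continuousAt.eventually (hcl.isOpen_compl.mem_nhds (by simp))
    filter_upwards [h1, hy] with w h1 h2
    by_contra h3
    exact h1 (Finset.mem_coe.2 (Finset.mem_erase.2 ⟨h3, htr _ h2⟩))
  let sp : Set C → Submodule ℂ (Matrix (Fin n) (Fin n) ℂ) := fun W => Submodule.span ℂ (r '' W)
  have hex : ∃ d, ∃ W ∈ 𝓝 (1 : C), Module.finrank ℂ (sp W) = d := ⟨_, univ, univ_mem, rfl⟩
  obtain ⟨W₀, hW₀, hd⟩ := Nat.find_spec hex
  have hmin : ∀ W ∈ 𝓝 (1 : C), W ⊆ W₀ → sp W = sp W₀ := fun W hW hsub => by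
    refine Submodule.eq_of_le_of_finrank_le (Submodule.span_mono (image_mono hsub)) ?_
    rw [hd]
    exact Nat.find_min' hex ⟨W, hW, rfl⟩
  obtain ⟨W₁, hW₁, hsplit⟩ := exists_nhds_one_split (inter_mem hW₀ hconst)
  have hsub : W₁ ⊆ W₀ := fun w hw => by
    simpa using (hsplit w hw 1 (mem_of_mem_nhds hW₁)).1
  have hmul : ∀ a ∈ sp W₀, ∀ b ∈ sp W₀, a * b ∈ sp W₀ := by
    intro a ha b hb
    rw [← hmin W₁ hW₁ hsub] at ha hb
    have h1 := Submodule.mul_mem_mul ha hb
    rw [Submodule.span_mul_span] at h1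
    refine Submodule.span_mono ?_ h1
    rintro _ ⟨_, ⟨v, hv, rfl⟩, _, ⟨w, hw, rfl⟩, rfl⟩
    exact ⟨v * w, (hsplit v hv w hw).1, map_mul _ _ _⟩
  have hall : ∀ c, r c ∈ sp W₀ := by
    let H : Subgroup C :=
      { carrier := {c | r c ∈ sp W₀ ∧ r c⁻¹ ∈ sp W₀}
        one_mem' := by
          have : r 1 ∈ sp W₀ := Submodule.subset_span ⟨1, mem_of_mem_nhds hW₀, rfl⟩
          exact ⟨this, by rwa [inv_one]⟩
        mul_mem' := fun {a b} ha hb => ⟨by rw [map_mul]; exact hmul _ ha.1 _ hb.1,
          by rw [mul_inv_rev, map_mul]; exact hmul _ hb.2 _ ha.2⟩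
        inv_mem' := fun {a} ha => ⟨ha.2, by rw [inv_inv]; exact ha.1⟩ }
    have hH : H = ⊤ := eq_top_of_nhds H (by
      filter_upwards [hW₀, inv_mem_nhds_one C hW₀] with w h1 h2
      exact ⟨Submodule.subset_span ⟨w, h1, rfl⟩, Submodule.subset_span ⟨w⁻¹, h2, rfl⟩⟩)
    exact fun c => (hH ▸ Subgroup.mem_top c : c ∈ H).1
  have hker : ρ.ker = ⊤ := by
    refine eq_top_of_nhds _ ?_
    filter_upwards [hW₁] with w hw
    have h1 : ∀ a ∈ sp W₀, ((r (y * w) - r y) * a).trace = 0 := by
      intro a ha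
      rw [← hmin W₁ hW₁ hsub] at ha
      induction ha using Submodule.span_induction with
      | mem x hx =>
        obtain ⟨v, hv, rfl⟩ := hx
        have e1 : (r (y * (w * v))).trace = _ := (hsplit w hw v hv).2
        have e2 : (r (y * (1 * v))).trace = _ := (hsplit 1 (mem_of_mem_nhds hW₁) v hv).2
        rw [one_mul] at e2
        rw [sub_mul, Matrix.trace_sub, ← map_mul, ← map_mul, mul_assoc, e1, e2, sub_self]
      | zero => simp
      | add _ _ _ _ h1 h2 => rw [mul_add, Matrix.trace_add, h1, h2, add_zero]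
      | smul c _ _ h1 => rw [mul_smul_comm, Matrix.trace_smul, h1, smul_zero]
    have h2 := h1 (r (y * w) - r y).conjTranspose (by
      rw [Matrix.conjTranspose_sub, hstar, hstar]
      exact sub_mem (hall _) (hall _))
    have h3 : ρ (y * w) = ρ y :=
      Subtype.ext (sub_eq_zero.1 (Matrix.trace_mul_conjTranspose_self_eq_zero_iff.1 h2))
    rw [map_mul] at h3
    exact mul_eq_left.1 h3
  exact (hker ▸ Subgroup.mem_top g : g ∈ ρ.ker)

/-- A compact torsion group is totally disconnected. -/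
theorem td (G : Type u) [Group G] [TopologicalSpace G] [IsTopologicalGroup G] [CompactSpace G]
    [T2Space G] (hT : ∀ g : G, IsOfFinOrder g) : TotallyDisconnectedSpace G := by
  rw [totallyDisconnectedSpace_iff_connectedComponent_one]
  refine eq_singleton_iff_unique_mem.2 ⟨mem_connectedComponent, fun g hg => ?_⟩
  by_contra h1
  obtain ⟨n, ρ, hρ, hg1⟩ := pw G g h1
  let C := Subgroup.connectedComponentOfOne G
  have : CompactSpace C := isCompact_iff_compactSpace.1 isClosed_connectedComponent.isCompact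
  have : PreconnectedSpace C := Subtype.preconnectedSpace isPreconnected_connectedComponent
  exact hg1 (conn_trivial (C := C) (fun c => (C.subtype_injective.isOfFinOrder_iff).1 (hT c))
    (ρ.comp C.subtype) (hρ.comp continuous_subtype_val) ⟨g, hg⟩)

lemma continuous_lift {G : Type*} [Group G] [TopologicalSpace G] [IsTopologicalGroup G]
    {ι : Type*} (w : FreeGroup ι) : Continuous fun g : ι → G => FreeGroup.lift g w := by
  induction w using FreeGroup.induction_on with
  | C1 => simpa using continuous_const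
  | of x => simpa using continuous_apply x
  | inv_of x _ => simpa using (continuous_apply x).fun_inv
  | mul x y hx hy => simpa using hx.fun_mul hy

/-- The Baire category step. -/
theorem baire {G : Type*} [Group G] [TopologicalSpace G] [IsTopologicalGroup G] [CompactSpace G]
    [T2Space G] [TotallyDisconnectedSpace G] {ι : Type} [Finite ι]
    (h : ∀ g : ι → G, Finite (FreeGroup.lift g).range) :
    ∃ (M : OpenNormalSubgroup G) (y : ι → G) (K : Subgroup (FreeGroup ι)),
      K.Normal ∧ K.FiniteIndex ∧ Ids M.toSubgroup y K := by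
  classical
  obtain ⟨S, y, hy⟩ := nonempty_interior_of_iUnion_of_closed
    (ι := {S : Finset (FreeGroup ι) // (Subgroup.closure (S : Set (FreeGroup ι))).FiniteIndex})
    (f := fun S => {g : ι → G | ∀ w ∈ S.1, FreeGroup.lift g w = 1})
    (fun S => by
      simp only [ofPred_forall]
      exact isClosed_iInter fun w => isClosed_iInter fun _ =>
        isClosed_eq (continuous_lift w) continuous_const)
    (eq_univ_of_forall fun g => by
      have h1 := h g
      have h2 : (FreeGroup.lift g).ker.FG := (Group.fg_iff_subgroup_fg _).1 inferInstance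
      obtain ⟨S, hS⟩ := h2
      refine mem_iUnion.2 ⟨⟨S, hS ▸ inferInstance⟩, fun w hw => ?_⟩
      exact (hS ▸ Subgroup.subset_closure hw : w ∈ (FreeGroup.lift g).ker))
  have h1 : Tendsto (fun u : ι → G => y * u) (𝓝 1) (𝓝 y) := by
    simpa using (continuous_const_mul y).tendsto 1
  have h2 := h1 (mem_interior_iff_mem_nhds.1 hy)
  rw [mem_map, nhds_pi, Filter.mem_pi] at h2
  obtain ⟨I, -, t, ht, hsub⟩ := h2
  have h3 : (⋂ i, t i) ∈ 𝓝 (1 : G) := iInter_mem.2 ht
  obtain ⟨M, hM⟩ := ProfiniteGrp.exist_openNormalSubgroup_sub_open_nhds_of_one isOpen_interior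
    (mem_interior_iff_mem_nhds.2 h3)
  have := S.2
  refine ⟨M, y, (Subgroup.closure (S.1 : Set (FreeGroup ι))).normalCore, inferInstance,
    inferInstance, fun u hu => (Subgroup.normalCore_le _).trans ?_⟩
  rw [Subgroup.closure_le]
  intro w hw
  exact hsub (fun i _ => mem_iInter.1 (interior_subset (hM (hu i))) i) w hw

lemma exp_of_open {G : Type*} [Group G] [TopologicalSpace G] [IsTopologicalGroup G]
    [CompactSpace G] (M : OpenNormalSubgroup G) {t : ℕ} (ht : 0 < t)
    (h : ∀ x ∈ M.toSubgroup, x ^ t = 1) : ∃ N, 0 < N ∧ ∀ g : G, g ^ N = 1 := by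
  have : M.toSubgroup.FiniteIndex := M.toOpenSubgroup.finiteIndex_of_finite_quotient
  refine ⟨M.toSubgroup.index * t,
    Nat.mul_pos (Nat.pos_of_ne_zero Subgroup.FiniteIndex.index_ne_zero) ht, fun g => ?_⟩
  rw [pow_mul]
  exact h _ (Subgroup.pow_index_mem _ g)

end Pool.Agent.MP_3312ae_al.H59
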