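import Pool.Agent.MP_3312ae_al.H59.Defs
import Pool.Agent.MP_3312ae_al.H59.Schur
import Pool.Agent.MP_3312ae_al.H59.Top

/-! Compact torsion groups whose finitely generated subgroups have a bounded series. -/

namespace Pool.Agent.MP_3312ae_al.H59

open Subgroup Topology

universe u v

lemma fi_ker {T : Type*} [Group T] [Group.FG T] (hT : ∀ g : T, IsOfFinOrder g) {n : ℕ}
    {R : Type v} [CommRing R] (ρ : T →* GL (Fin n) R) : ρ.ker.FiniteIndex := by
  have : Finite ρ.range :=
    schur (T := ρ.range) (fun g => by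
      obtain ⟨g, rfl⟩ := ρ.rangeRestrict_surjective g
      exact MonoidHom.isOfFinOrder _ (hT g)) ((Units.coeHom _).comp ρ.range.subtype)
      (Units.val_injective.comp Subtype.val_injective)
  infer_instance

lemma Ser.finite {n m f : ℕ} {T : Type u} [Group T] [Group.FG T] (hT : ∀ g : T, IsOfFinOrder g)
    (h : Ser.{u, v} n m f T) : Finite T := by
  obtain ⟨S, h0, hf, hS⟩ := h
  have key : ∀ i ≤ f, (S i).FiniteIndex := by
    intro i
    induction i with
    | zero => intro _; rw [h0]; infer_instance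
    | succ i ih =>
      intro hi
      have := ih (by omega)
      obtain ⟨hn, hle, h | h | ⟨R, _, ρ, h⟩⟩ := hS i hi
      · have := fi_comm hT (S i)
        exact finiteIndex_of_le h
      · constructor
        rw [← relIndex_mul_index hle]
        exact mul_ne_zero h.1 FiniteIndex.index_ne_zero
      · have := fi_ker hT ρ
        exact finiteIndex_of_le h
  have h1 := key f le_rfl
  rw [hf] at h1
  exact Nat.finite_of_card_ne_zero (by simpa using h1.index_ne_zero)

/-- The uniform version over a family of groups. -/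
lemma uniform {X : Type u} {T : X → Type u} [∀ x, Group (T x)] {n m f : ℕ} (hm : 0 < m)
    (Y : ∀ x, Subgroup (T x)) [hY : ∀ x, (Y x).Normal] (y : Fin (n * n + 2) → ∀ x, T x)
    (K : Subgroup (FreeGroup (Fin (n * n + 2)))) [K.Normal] [K.FiniteIndex]
    (hK : ∀ x, Ids (Y x) (fun i => y i x) K) (h : ∀ x, Ser.{u, v} n m f (T x))
    (g : ∀ x, T x) (hg : ∀ x, g x ∈ Y x) : ∃ t, 0 < t ∧ ∀ x, g x ^ t = 1 := by
  classical
  choose S h0 hf hS using h
  let Z : Subgroup (∀ x, T x) := Subgroup.pi Set.univ Y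
  have hZ : Z.Normal := ⟨fun a ha b x hx => (hY x).conj_mem _ (ha x hx) (b x)⟩
  have hKZ : Ids Z y K := by
    intro w hw z hz
    rw [MonoidHom.mem_ker]
    funext x
    have h1 := hK x (fun i => w i x) (fun i => hw i x trivial) hz
    have h2 : (Pi.evalMonoidHom T x).comp (FreeGroup.lift fun i => y i * w i) =
        FreeGroup.lift fun i => y i x * w i x := by
      ext i
      simp
    exact (DFunLike.congr_fun h2 z).trans h1
  have h01 : (0 : Fin (n * n + 2)) ≠ 1 := by simp
  have key : ∀ i ≤ f, ∃ t, 0 < t ∧ ∀ x, g x ^ t ∈ S x i := by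
    intro i
    induction i with
    | zero => exact fun _ => ⟨1, one_pos, fun x => by rw [h0]; exact mem_top _⟩
    | succ i ih =>
      intro hi
      obtain ⟨t, ht, ht'⟩ := ih (by omega)
      have hR : ∀ x, ∃ (R : Type v) (_ : CommRing R) (ρ : T x →* GL (Fin n) R),
          ⁅S x i, S x i⁆ ≤ S x (i + 1) ∨ (∀ a ∈ S x i, a ^ m ∈ S x (i + 1)) ∨
            S x i ⊓ ρ.ker ≤ S x (i + 1) := fun x => by
        obtain ⟨-, -, h | h | ⟨R, _, ρ, h⟩⟩ := hS x i hi
        · exact ⟨PUnit, inferInstance, 1, Or.inl h⟩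
        · exact ⟨PUnit, inferInstance, 1, Or.inr (Or.inl h.2)⟩
        · exact ⟨R, inferInstance, ρ, Or.inr (Or.inr h)⟩
      choose R inst ρ hρ using hR
      let σ : (∀ x, T x) →* Matrix (Fin n) (Fin n) (∀ x, R x) :=
        { toFun := fun a => Matrix.of fun k l x => (ρ x (a x) : Matrix (Fin n) (Fin n) (R x)) k l
          map_one' := by
            ext k l x
            by_cases e : k = l <;> simp [Matrix.one_apply, e]
          map_mul' := fun a b => by
            ext k l x
            simp [Matrix.mul_apply] }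
      obtain ⟨s, hs, hs'⟩ := ring_step hKZ σ g fun x _ => hg x
      have hker : ∀ x, g x ^ s ∈ (ρ x).ker := fun x => by
        rw [MonoidHom.mem_ker] at hs' ⊢
        ext k l
        have := congrFun (congrFun (congrFun hs' k) l) x
        by_cases e : k = l <;> simpa [σ, Matrix.one_apply, e] using this
      refine ⟨t * (s * (m * ex K 0 1)),
        Nat.mul_pos ht (Nat.mul_pos hs (Nat.mul_pos hm (ex_pos 0 1))), fun x => ?_⟩
      have := (hS x i hi).1
      rcases hρ x with h | h | h
      · have h1 := (hK x).as_top h01 (S x i ⊓ Y x) inferInstance inf_le_right (g x ^ t)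
          ⟨ht' x, pow_mem (hg x) _⟩
        have h2 := pow_mem (h (commutator_mono inf_le_left inf_le_left h1)) (s * m)
        rw [← pow_mul, ← pow_mul] at h2
        convert h2 using 2
        ring
      · have h2 := pow_mem (h _ (ht' x)) (s * ex K 0 1)
        rw [← pow_mul, ← pow_mul] at h2
        convert h2 using 2
        ring
      · have h1 : g x ^ (t * s) ∈ S x i ⊓ (ρ x).ker :=
          ⟨by rw [pow_mul]; exact pow_mem (ht' x) _,
            by rw [mul_comm, pow_mul]; exact pow_mem (hker x) _⟩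
        have h2 := pow_mem (h h1) (m * ex K 0 1)
        rw [← pow_mul] at h2
        convert h2 using 2
        ring
  obtain ⟨t, ht, ht'⟩ := key f le_rfl
  exact ⟨t, ht, fun x => by simpa [hf] using ht' x⟩

lemma Ids.sub {L : Type*} [Group L] {ι : Type*} {Y : Subgroup L} {y : ι → L}
    {K : Subgroup (FreeGroup ι)} (h : Ids Y y K) (S : Subgroup L) (hy : ∀ i, y i ∈ S) :
    Ids (Y.subgroupOf S) (fun i => (⟨y i, hy i⟩ : S)) K := by
  intro w hw z hz
  have h1 := h (fun i => w i) hw hz
  have h2 : S.subtype.comp (FreeGroup.lift fun i => (⟨y i, hy i⟩ : S) * w i) =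
      FreeGroup.lift fun i => y i * w i := by
    ext i
    simp
  rw [MonoidHom.mem_ker] at h1 ⊢
  exact Subtype.ext ((DFunLike.congr_fun h2 z).trans h1)

theorem main (G : Type u) [Group G] [TopologicalSpace G] [IsTopologicalGroup G] [CompactSpace G]
    [T2Space G] (n : ℕ)
    (h : ∀ y : Fin (n * n + 2) → G, ∃ U ∈ 𝓝 (1 : G), ∃ m f : ℕ, 0 < m ∧
      ∀ x ∈ U, Ser.{u, v} n m f (Subgroup.closure (insert x (Set.range y))))
    (hT : ∀ g : G, IsOfFinOrder g) : ∃ N, 0 < N ∧ ∀ g : G, g ^ N = 1 := by
  have := td G hT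
  obtain ⟨M, y, K, _, _, hK⟩ := baire (G := G) (ι := Fin (n * n + 2)) fun g => by
    obtain ⟨U, hU, m, f, -, h1⟩ := h g
    have h2 := h1 1 (mem_of_mem_nhds hU)
    have : Finite (insert 1 (Set.range g) : Set G) := ((Set.finite_range g).insert 1).to_subtype
    have h3 := h2.finite fun c => (Subgroup.subtype_injective _).isOfFinOrder_iff.1 (hT c)
    rw [FreeGroup.range_lift_eq_closure]
    exact Finite.of_injective _ (inclusion_injective
      (Subgroup.closure_mono (Set.subset_insert 1 (Set.range g))))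
  obtain ⟨U, hU, m, f, hm, h1⟩ := h y
  obtain ⟨M', hM'⟩ := ProfiniteGrp.exist_openNormalSubgroup_sub_open_nhds_of_one
    (isOpen_interior.inter M.isOpen) ⟨mem_interior_iff_mem_nhds.2 hU, M.toSubgroup.one_mem⟩
  obtain ⟨t, ht, ht'⟩ := uniform.{u, v} (X := M'.toSubgroup)
    (T := fun x => Subgroup.closure (insert (x : G) (Set.range y))) hm
    (fun x => M.toSubgroup.subgroupOf _)
    (fun i x => ⟨y i, Subgroup.subset_closure (Set.mem_insert_of_mem _ ⟨i, rfl⟩)⟩) K
    (fun x => hK.sub _ _) (fun x => h1 x (interior_subset (hM' x.2).1))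
    (fun x => ⟨x, Subgroup.subset_closure (Set.mem_insert _ _)⟩) (fun x => (hM' x.2).2)
  exact exp_of_open M' ht fun x hx => congrArg Subtype.val (ht' ⟨x, hx⟩)

end Pool.Agent.MP_3312ae_al.H59
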