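import Pool.Agent.MP_3312ae_al.H59.Field

/-! Matrix groups over commutative rings under coset identities. -/

namespace Pool.Agent.MP_3312ae_al.H59

open Subgroup
open scoped commutatorElement

universe u

section nil

variable {L : Type*} [Group L] {A : Type*} [CommRing A] {n : ℕ}

/-- Reduction of a matrix representation along a ring homomorphism. -/
def red {B : Type*} [CommRing B] (φ : A →+* B) (ρ : L →* Matrix (Fin n) (Fin n) A) :
    L →* Matrix (Fin n) (Fin n) B :=
  φ.mapMatrix.toMonoidHom.comp ρ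

lemma mem_ker_red {B : Type*} [CommRing B] (φ : A →+* B) (ρ : L →* Matrix (Fin n) (Fin n) A)
    (g : L) : g ∈ (red φ ρ).ker ↔ ∀ i j, φ ((ρ g - 1) i j) = 0 := by
  rw [MonoidHom.mem_ker, ← sub_eq_zero]
  have : red φ ρ g - 1 = φ.mapMatrix (ρ g - 1) := by
    rw [map_sub, map_one]; rfl
  rw [this, ← Matrix.ext_iff]
  rfl

/-- The congruence subgroup. -/
def cong (ρ : L →* Matrix (Fin n) (Fin n) A) (J : Ideal A) : Subgroup L :=
  (red (Ideal.Quotient.mk J) ρ).ker

instance (ρ : L →* Matrix (Fin n) (Fin n) A) (J : Ideal A) : (cong ρ J).Normal :=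
  MonoidHom.normal_ker _

lemma mem_cong {ρ : L →* Matrix (Fin n) (Fin n) A} {J : Ideal A} {g : L} :
    g ∈ cong ρ J ↔ ∀ i j, (ρ g - 1) i j ∈ J := by
  simp only [cong, mem_ker_red, Ideal.Quotient.eq_zero_iff_mem]

lemma der_cong (ρ : L →* Matrix (Fin n) (Fin n) A) (J : Ideal A) (m : ℕ) :
    der (cong ρ J) m ≤ cong ρ (J ^ (m + 1)) := by
  induction m with
  | zero => simp [der]
  | succ m ih =>
    refine commutator_le.2 fun a ha b hb => ?_
    have ha' := mem_cong.1 (ih ha)
    have hb' := mem_cong.1 (ih hb)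
    have hle : J ^ (m + 1) * J ^ (m + 1) ≤ J ^ (m + 1 + 1) := by
      rw [← pow_add]
      exact Ideal.pow_le_pow_right (by omega)
    have e : ρ ⁅a, b⁆ - 1 =
        ((ρ a - 1) * (ρ b - 1) - (ρ b - 1) * (ρ a - 1)) * ρ (b * a)⁻¹ := by
      have h1 : (ρ a - 1) * (ρ b - 1) - (ρ b - 1) * (ρ a - 1) = ρ (a * b) - ρ (b * a) := by
        simp only [map_mul]; noncomm_ring
      rw [h1, sub_mul, ← map_mul, ← map_mul, mul_inv_cancel, map_one, commutatorElement_def]
      congr 2
      group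
    rw [mem_cong, e]
    intro i j
    rw [Matrix.mul_apply]
    refine Ideal.sum_mem _ fun l _ => Ideal.mul_mem_right _ _ ?_
    rw [Matrix.sub_apply, Matrix.mul_apply, Matrix.mul_apply]
    exact sub_mem (Ideal.sum_mem _ fun s _ => hle (Ideal.mul_mem_mul (ha' _ _) (hb' _ _)))
      (Ideal.sum_mem _ fun s _ => hle (Ideal.mul_mem_mul (hb' _ _) (ha' _ _)))

lemma der_cong_nil (ρ : L →* Matrix (Fin n) (Fin n) A) (J : Ideal A) (hJ : IsNilpotent J) :
    ∃ m, der (cong ρ J) m ≤ ρ.ker := by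
  obtain ⟨m, hm⟩ := hJ
  refine ⟨m, fun g hg => ?_⟩
  have h := mem_cong.1 (der_cong ρ J m hg)
  rw [pow_succ, hm, zero_mul] at h
  rw [MonoidHom.mem_ker, ← sub_eq_zero]
  ext i j
  exact h i j

/-- The embedding of a domain into an algebraically closed field. -/
lemma exists_closed (A : Type u) [CommRing A] (P : Ideal A) [P.IsPrime] :
    ∃ (k : Type u) (_ : Field k) (_ : IsAlgClosed k) (φ : A →+* k), ∀ x, φ x = 0 ↔ x ∈ P := by
  refine ⟨AlgebraicClosure (FractionRing (A ⧸ P)), inferInstance, inferInstance,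
    ((algebraMap (FractionRing (A ⧸ P)) _).comp (algebraMap (A ⧸ P) _)).comp
      (Ideal.Quotient.mk P), fun x => ?_⟩
  simp only [RingHom.comp_apply, map_eq_zero, FaithfulSMul.algebraMap_eq_zero_iff,
    Ideal.Quotient.eq_zero_iff_mem]

end nil

/-- All tuples `y i * u i` with `u i` in `Y` satisfy the relations in `K`. -/
def Ids {L : Type*} [Group L] {ι : Type*} (Y : Subgroup L) (y : ι → L)
    (K : Subgroup (FreeGroup ι)) : Prop :=
  ∀ u : ι → L, (∀ i, u i ∈ Y) → K ≤ (FreeGroup.lift fun i => y i * u i).ker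

section ids

variable {L : Type*} [Group L] {ι : Type*} {Y : Subgroup L} {y : ι → L}
  {K : Subgroup (FreeGroup ι)}

/-- The exponent of abelian sections. -/
noncomputable def ex (K : Subgroup (FreeGroup ι)) (a b : ι) : ℕ :=
  (K.comap (FreeGroup.map (pr a b))).index * (K.comap (FreeGroup.map (pr a b))).index

lemma fi_comap [K.Normal] [K.FiniteIndex] (a b : ι) :
    (K.comap (FreeGroup.map (pr a b))).FiniteIndex := by
  rw [← QuotientGroup.ker_mk' K, MonoidHom.comap_ker]
  exact finiteIndex_ker _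

lemma ex_pos [K.Normal] [K.FiniteIndex] (a b : ι) : 0 < ex K a b :=
  Nat.pos_of_ne_zero (mul_ne_zero (fi_comap a b).index_ne_zero (fi_comap a b).index_ne_zero)

lemma Ids.as [K.Normal] [K.FiniteIndex] (h : Ids Y y K) {a b : ι} (hab : a ≠ b) (S : Subgroup L)
    (ha : y a ∈ S) (hb : y b ∈ S) : AS (Y.subgroupOf S) (ex K a b) := by
  classical
  have := fi_comap (K := K) a b
  refine as_of_pair _ _ (⟨y a, ha⟩ : S) ⟨y b, hb⟩ fun v hv w hw x hx => ?_
  let u : ι → L := fun i => if i = a then v else if i = b then w else 1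
  have hu : ∀ i, u i ∈ Y := fun i => by
    simp only [u]
    split_ifs
    exacts [hv, hw, Y.one_mem]
  have h1 := h u hu hx
  have h2 : (FreeGroup.lift fun i => y i * u i).comp (FreeGroup.map (pr a b)) =
      S.subtype.comp (FreeGroup.lift (pr (⟨y a, ha⟩ * v) (⟨y b, hb⟩ * w))) := by
    ext c
    cases c <;> simp [pr, u, hab.symm]
  rw [MonoidHom.mem_ker] at h1 ⊢
  exact Subtype.ext ((DFunLike.congr_fun h2 x).symm.trans h1)

lemma Ids.as_top [K.Normal] [K.FiniteIndex] (h : Ids Y y K) {a b : ι} (hab : a ≠ b) :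
    AS Y (ex K a b) := by
  classical
  have := fi_comap (K := K) a b
  refine as_of_pair _ _ (y a) (y b) fun v hv w hw x hx => ?_
  let u : ι → L := fun i => if i = a then v else if i = b then w else 1
  have hu : ∀ i, u i ∈ Y := fun i => by
    simp only [u]
    split_ifs
    exacts [hv, hw, Y.one_mem]
  have h1 := h u hu hx
  have h2 : (FreeGroup.lift fun i => y i * u i).comp (FreeGroup.map (pr a b)) =
      FreeGroup.lift (pr (y a * v) (y b * w)) := by
    ext c
    cases c <;> simp [pr, u, hab.symm]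
  rw [MonoidHom.mem_ker] at h1 ⊢
  exact (DFunLike.congr_fun h2 x).symm.trans h1

end ids

lemma exists_stable {k V : Type*} [Field k] [AddCommGroup V] [Module k V]
    [FiniteDimensional k V] (S : ℕ → Submodule k V) (hS : Monotone S) (s : ℕ) (hs : S s ≠ ⊥) :
    ∃ j, s ≤ j ∧ j < s + Module.finrank k V ∧ S (j + 1) ≤ S j := by
  by_contra hc
  have key : ∀ t, t ≤ Module.finrank k V → t + 1 ≤ Module.finrank k (S (s + t)) := by
    intro t
    induction t with
    | zero => exact fun _ => Nat.pos_of_ne_zero fun h => hs (Submodule.finrank_eq_zero.1 h)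
    | succ t ih =>
      intro ht
      have h1 : S (s + t) < S (s + t + 1) :=
        lt_of_le_not_ge (hS (Nat.le_succ _)) fun h => hc ⟨s + t, by omega, by omega, h⟩
      exact Nat.succ_le_of_lt ((ih (by omega)).trans_lt (Submodule.finrank_lt_finrank_of_lt h1))
  have := (key _ le_rfl).trans (Submodule.finrank_le _)
  omega

lemma field_step {L : Type*} [Group L] {n : ℕ} {Y : Subgroup L} [hY : Y.Normal]
    {y : Fin (n * n + 2) → L} {K : Subgroup (FreeGroup (Fin (n * n + 2)))} [K.Normal]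
    [K.FiniteIndex] (h : Ids Y y K) {k : Type u} [Field k] [IsAlgClosed k]
    (ρ : L →* Matrix (Fin n) (Fin n) k) :
    ∀ g ∈ Y, g ^ (bd K.index n * ex K 0 1 ^ n) ∈ ρ.ker := by
  classical
  intro g hg
  rcases Nat.eq_zero_or_pos n with rfl | hn
  · exact Subsingleton.elim _ _
  have : Nonempty (Fin n) := ⟨⟨0, hn⟩⟩
  let H : ℕ → Subgroup L := fun j => closure (y '' {i | i.val < j})
  let S : ℕ → Submodule k (Matrix (Fin n) (Fin n) k) :=
    fun j => Submodule.span k (ρ '' (H j ⊔ Y : Subgroup L))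
  have hS : Monotone S := fun a b hab => by
    refine Submodule.span_mono (Set.image_mono ?_)
    exact sup_le_sup_right (Subgroup.closure_mono (Set.image_mono fun i hi => lt_of_lt_of_le hi hab)) Y
  obtain ⟨j, hj1, hj2, hj3⟩ := exists_stable S hS 2 fun h0 => by
    have h1 : ρ 1 ∈ S 2 := Submodule.subset_span ⟨1, one_mem _, rfl⟩
    rw [h0, map_one] at h1
    exact one_ne_zero (α := Matrix (Fin n) (Fin n) k) h1
  rw [Module.finrank_matrix, Fintype.card_fin, Module.finrank_self, mul_one] at hj2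
  let j' : Fin (n * n + 2) := ⟨j, by omega⟩
  have hmem : ∀ (t : ℕ) (i : Fin (n * n + 2)), i.val < t → y i ∈ H t ⊔ Y := fun t i hi =>
    mem_sup_left (subset_closure ⟨i, hi, rfl⟩)
  have hz : ρ (y j') ∈ Submodule.span k (Set.range (ρ.comp (H j ⊔ Y).subtype)) := by
    have h1 : ρ (y j') ∈ S j :=
      hj3 (Submodule.subset_span ⟨_, hmem (j + 1) j' (Nat.lt_succ_self j), rfl⟩)
    have h2 : Set.range (ρ.comp (H j ⊔ Y).subtype) = ρ '' (H j ⊔ Y : Subgroup L) := by
      ext x
      constructor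
      · rintro ⟨a, rfl⟩; exact ⟨a, a.2, rfl⟩
      · rintro ⟨a, ha, rfl⟩; exact ⟨⟨a, ha⟩, rfl⟩
    rwa [h2]
  have hN : 0 < K.index := Nat.pos_of_ne_zero FiniteIndex.index_ne_zero
  obtain ⟨K₀, n0, -, p0, d0⟩ := matrix_case hN (ρ.comp (H j ⊔ Y).subtype) _ hz (by
    rintro ⟨x, hx⟩
    obtain ⟨a, ha, b, hb, rfl⟩ := mem_sup_of_normal_right.1 hx
    let u : Fin (n * n + 2) → L := fun i => if i = j' then a * b * a⁻¹ else 1
    have hu : ∀ i, u i ∈ Y := fun i => by
      simp only [u]
      split_ifs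
      exacts [hY.conj_mem b hb a, Y.one_mem]
    have h1 : H j ≤ (FreeGroup.lift fun i => y i * u i).range := by
      rw [closure_le]
      rintro _ ⟨i, hi, rfl⟩
      have : i ≠ j' := fun e => by subst e; exact lt_irrefl j hi
      exact ⟨FreeGroup.of i, by simp [u, this]⟩
    obtain ⟨w, hw⟩ := h1 ha
    have h2 : (FreeGroup.lift fun i => y i * u i) (FreeGroup.of j' * w) = y j' * (a * b) := by
      rw [map_mul, hw]
      simp [u, mul_assoc]
    have h3 := h u hu (pow_index_mem K (FreeGroup.of j' * w))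
    rw [MonoidHom.mem_ker, map_pow, h2] at h3
    change (ρ (y j') * ρ (a * b)) ^ K.index = 1
    rw [← map_mul, ← map_pow, h3, map_one])
  have h01 : (0 : Fin (n * n + 2)) ≠ 1 := by simp
  have hAS := h.as h01 (H j ⊔ Y) (hmem j 0 (by simp; omega)) (hmem j 1 (by simp; omega))
  let g' : (H j ⊔ Y : Subgroup L) := ⟨g, mem_sup_right hg⟩
  have h4 : g' ^ bd K.index n ∈ K₀ ⊓ Y.subgroupOf (H j ⊔ Y) :=
    ⟨p0 g', pow_mem (show g' ∈ Y.subgroupOf (H j ⊔ Y) from hg) _⟩
  have h5 := d0 (der_mono inf_le_left n (hAS.der _ inf_le_right n _ h4))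
  rw [← pow_mul] at h5
  exact h5

/-- The algebraic core: under the coset identities every element of `Y` has finite order in a
matrix representation over a commutative ring. -/
theorem ring_step {L : Type*} [Group L] {n : ℕ} {Y : Subgroup L} [hY : Y.Normal]
    {y : Fin (n * n + 2) → L} {K : Subgroup (FreeGroup (Fin (n * n + 2)))} [K.Normal]
    [K.FiniteIndex] (h : Ids Y y K) {A : Type u} [CommRing A]
    (ρ : L →* Matrix (Fin n) (Fin n) A) (g : L) (hg : g ∈ Y) : ∃ t, 0 < t ∧ g ^ t ∈ ρ.ker := by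
  classical
  set c := bd K.index n * ex K 0 1 ^ n with hc
  have hc0 : 0 < c := Nat.mul_pos (Nat.factorial_pos _) (Nat.pow_pos (ex_pos 0 1))
  let J : Ideal A := Ideal.span (Set.range fun p : Fin n × Fin n => (ρ (g ^ c) - 1) p.1 p.2)
  have hJ : IsNilpotent J := by
    have hfg : J.FG := Submodule.fg_span (Set.finite_range _)
    refine (Ideal.FG.isNilpotent_iff_le_nilradical hfg).2 (Ideal.span_le.2 ?_)
    rintro _ ⟨p, rfl⟩
    refine mem_nilradical.2 (nilpotent_iff_mem_prime.2 fun P hP => ?_)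
    obtain ⟨k, _, _, φ, hφ⟩ := exists_closed A P
    exact (hφ _).1 ((mem_ker_red φ ρ _).1 (field_step h (red φ ρ) g hg) p.1 p.2)
  obtain ⟨m, hm⟩ := der_cong_nil ρ J hJ
  have h01 : (0 : Fin (n * n + 2)) ≠ 1 := by simp
  have h4 : g ^ c ∈ cong ρ J ⊓ Y :=
    ⟨mem_cong.2 fun i j => Ideal.subset_span ⟨(i, j), rfl⟩, pow_mem hg _⟩
  have h5 := hm (der_mono inf_le_left m ((h.as_top h01).der _ inf_le_right m _ h4))
  rw [← pow_mul] at h5
  exact ⟨_, Nat.mul_pos hc0 (Nat.pow_pos (ex_pos 0 1)), h5⟩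

end Pool.Agent.MP_3312ae_al.H59
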