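import Mathlib

/-! Abelian sections under coset identities, iterated commutator subgroups. -/

namespace Pool.Agent.MP_3312ae_al.H59

open Subgroup

section der

variable {G : Type*} [Group G]

/-- Iterated commutator subgroups of a subgroup. -/
def der (K : Subgroup G) : ℕ → Subgroup G
  | 0 => K
  | m + 1 => ⁅der K m, der K m⁆

instance der_normal (K : Subgroup G) [K.Normal] (m : ℕ) : (der K m).Normal := by
  induction m with
  | zero => exact ‹_›
  | succ m ih => exact commutator_normal _ _

lemma der_mono {K K' : Subgroup G} (h : K ≤ K') (m : ℕ) : der K m ≤ der K' m := by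
  induction m with
  | zero => exact h
  | succ m ih => exact commutator_mono ih ih

lemma der_succ_le (K : Subgroup G) (m : ℕ) : der K (m + 1) ≤ der K m :=
  commutator_le.2 fun g hg h hh => by
    rw [commutatorElement_def]
    exact mul_mem (mul_mem (mul_mem hg hh) (inv_mem hg)) (inv_mem hh)

lemma der_le (K : Subgroup G) (m : ℕ) : der K m ≤ K := by
  induction m with
  | zero => exact le_rfl
  | succ m ih => exact (der_succ_le K m).trans ih

lemma der_top (m : ℕ) : der (⊤ : Subgroup G) m = derivedSeries G m := by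
  induction m with
  | zero => rfl
  | succ m ih => rw [der, ih, derivedSeries_succ]

/-- In a finitely generated torsion group the commutator subgroup of a normal subgroup of
finite index has finite index. -/
lemma fi_comm [Group.FG G] (hG : ∀ g : G, IsOfFinOrder g) (A : Subgroup G) [A.Normal]
    [A.FiniteIndex] : (⁅A, A⁆ : Subgroup G).FiniteIndex := by
  have hfin : Finite (Abelianization A) := by
    have : Group.FG (Abelianization A) :=
      Group.fg_of_surjective (f := Abelianization.of) (QuotientGroup.mk'_surjective _)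
    refine CommGroup.finite_of_fg_isMulTorsion _ fun x => ?_
    obtain ⟨a, rfl⟩ := QuotientGroup.mk'_surjective (_root_.commutator A) x
    refine MonoidHom.isOfFinOrder (QuotientGroup.mk' _) ?_
    exact (A.subtype_injective.isOfFinOrder_iff).1 (hG a)
  have h1 : (_root_.commutator A).FiniteIndex := by
    have : Finite (A ⧸ _root_.commutator A) := hfin
    exact finiteIndex_of_finite_quotient
  have h2 : (_root_.commutator A).map A.subtype = ⁅A, A⁆ := by
    rw [_root_.commutator_def, map_commutator, ← MonoidHom.range_eq_map, range_subtype]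
  rw [← h2]
  constructor
  rw [index_map_subtype]
  exact mul_ne_zero h1.index_ne_zero FiniteIndex.index_ne_zero

lemma fi_der [Group.FG G] (hG : ∀ g : G, IsOfFinOrder g) (A : Subgroup G) [A.Normal]
    [A.FiniteIndex] (m : ℕ) : (der A m).FiniteIndex := by
  induction m with
  | zero => exact ‹_›
  | succ m ih => exact fi_comm hG _

end der

section avg

open scoped IsMulCommutative

/-- Averaging of a cocycle given by two homomorphisms that agree modulo an abelian normal
subgroup. -/
lemma avg {D H : Type*} [Group D] [Finite D] [Group H] (V : Subgroup H) [hV : V.Normal]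
    [IsMulCommutative V] (f₀ f₁ : D →* H) (h : ∀ x, (f₀ x)⁻¹ * f₁ x ∈ V) :
    ∃ W ∈ V, ∀ x, (f₀ x)⁻¹ * W * f₀ x * ((f₀ x)⁻¹ * f₁ x) ^ Nat.card D = W := by
  classical
  have := Fintype.ofFinite D
  let c : D → V := fun x => ⟨_, h x⟩
  let cj : H → V →* V := fun g =>
    { toFun := fun v => ⟨g⁻¹ * v * g, hV.conj_mem' _ v.2 g⟩
      map_one' := by ext; simp
      map_mul' := fun a b => by ext; simp [mul_assoc] }
  have key : ∀ x z, c (z * x) = cj (f₀ x) (c z) * c x := by
    intro x z
    ext
    simp [c, cj, mul_assoc]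
  refine ⟨(∏ z, c z : V), (∏ z, c z).2, fun x => ?_⟩
  have h1 : ∏ z, c (z * x) = ∏ z, c z := Fintype.prod_equiv (Equiv.mulRight x) _ _ fun _ => rfl
  have h2 : ∏ z, c (z * x) = cj (f₀ x) (∏ z, c z) * c x ^ Nat.card D := by
    simp only [key, Finset.prod_mul_distrib, Finset.prod_const, Finset.card_univ, map_prod,
      Nat.card_eq_fintype_card]
  exact congrArg Subtype.val (h2.symm.trans h1)

/-- The pair of elements as a family indexed by `Bool`. -/
def pr {H : Type*} (p q : H) : Bool → H := fun b => if b then q else p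

/-- If all pairs `(p v, q w)` with `v, w` in an abelian normal subgroup `V` satisfy the relations
of a fixed finite group, then `V` has bounded exponent. -/
lemma abel_exp {H : Type*} [Group H] (V : Subgroup H) [hV : V.Normal] [IsMulCommutative V]
    (K : Subgroup (FreeGroup Bool)) [K.Normal] [K.FiniteIndex] (p q : H)
    (hK : ∀ v ∈ V, ∀ w ∈ V, K ≤ (FreeGroup.lift (pr (p * v) (q * w))).ker) :
    ∀ v ∈ V, v ^ (K.index * K.index) = 1 := by
  intro v hv
  have h00 := hK 1 V.one_mem 1 V.one_mem
  have h01 := hK 1 V.one_mem v hv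
  simp only [mul_one] at h00 h01
  let f₀ : FreeGroup Bool ⧸ K →* H := QuotientGroup.lift K _ h00
  let f₁ : FreeGroup Bool ⧸ K →* H := QuotientGroup.lift K _ h01
  have hmod : ∀ x, (f₀ x)⁻¹ * f₁ x ∈ V := by
    intro x
    obtain ⟨w, rfl⟩ := QuotientGroup.mk'_surjective K x
    have : (QuotientGroup.mk' V).comp (FreeGroup.lift (pr p q)) =
        (QuotientGroup.mk' V).comp (FreeGroup.lift (pr p (q * v))) := by
      ext b
      cases b
      · simp [pr]
      · simp [pr, hv]
    have h2 := DFunLike.congr_fun this w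
    exact QuotientGroup.eq.1 h2
  obtain ⟨W, hW, hWx⟩ := avg V f₀ f₁ hmod
  have ha := hWx (QuotientGroup.mk (FreeGroup.of false))
  have hb := hWx (QuotientGroup.mk (FreeGroup.of true))
  simp only [f₀, f₁, QuotientGroup.lift_mk, FreeGroup.lift_apply_of, pr, Bool.false_eq_true,
    if_false, if_true, inv_mul_cancel, one_pow, mul_one, inv_mul_cancel_left,
    ← index_eq_card] at ha hb
  have hpw : Commute p W := by
    have : W * p = p * W := by
      calc W * p = p * (p⁻¹ * W * p) := by group
        _ = p * W := by rw [ha]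
    exact this.symm
  have hp : p ^ K.index = 1 := by
    have := h00 (pow_index_mem K (FreeGroup.of false))
    simpa [pr] using this
  have hpW : (p * W) ^ K.index = 1 := by
    have := hK W hW 1 V.one_mem (pow_index_mem K (FreeGroup.of false))
    simpa [pr] using this
  have hWn : W ^ K.index = 1 := by rwa [hpw.mul_pow, hp, one_mul] at hpW
  have hW' : q⁻¹ * W * q ∈ V := hV.conj_mem' _ hW q
  have hW'n : (q⁻¹ * W * q) ^ K.index = 1 := by
    have := conj_pow (a := q⁻¹) (b := W) (i := K.index)
    rw [inv_inv] at this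
    rw [this, hWn]; simp
  have hc : Commute (q⁻¹ * W * q)⁻¹ W := by
    have := congrArg Subtype.val (mul_comm' (⟨_, V.inv_mem hW'⟩ : V) ⟨W, hW⟩)
    exact this
  have hv' : v ^ K.index = (q⁻¹ * W * q)⁻¹ * W := by
    rw [eq_inv_mul_iff_mul_eq]; exact hb
  rw [pow_mul, hv', hc.mul_pow, inv_pow, hW'n, hWn]
  simp

end avg

/-- Abelian sections property: abelian normal sections below `Y` have exponent dividing `e`. -/
def AS {L : Type*} [Group L] (Y : Subgroup L) (e : ℕ) : Prop :=
  ∀ A : Subgroup L, A.Normal → A ≤ Y → ∀ v ∈ A, v ^ e ∈ (⁅A, A⁆ : Subgroup L)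

lemma as_of_pair {L : Type*} [Group L] (Y : Subgroup L)
    (K : Subgroup (FreeGroup Bool)) [K.Normal] [K.FiniteIndex] (p q : L)
    (hK : ∀ v ∈ Y, ∀ w ∈ Y, K ≤ (FreeGroup.lift (pr (p * v) (q * w))).ker) :
    AS Y (K.index * K.index) := by
  intro A hA hAY v hv
  let π := QuotientGroup.mk' (⁅A, A⁆ : Subgroup L)
  have hn : (A.map π).Normal := hA.map π (QuotientGroup.mk'_surjective _)
  have hc : IsMulCommutative (A.map π) := by
    refine ⟨⟨?_⟩⟩
    rintro ⟨_, a, ha, rfl⟩ ⟨_, b, hb, rfl⟩
    ext
    change π a * π b = π b * π a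
    rw [← commutatorElement_eq_one_iff_mul_comm, ← map_commutatorElement]
    exact (QuotientGroup.eq_one_iff _).2 (commutator_mem_commutator ha hb)
  have := abel_exp (A.map π) K (π p) (π q) ?_ (π v) ⟨v, hv, rfl⟩
  · rw [← map_pow] at this
    exact (QuotientGroup.eq_one_iff _).1 this
  · rintro _ ⟨a, ha, rfl⟩ _ ⟨b, hb, rfl⟩ w hw
    have h1 := hK a (hAY ha) b (hAY hb) hw
    have h2 : FreeGroup.lift (pr (π p * π a) (π q * π b)) =
        π.comp (FreeGroup.lift (pr (p * a) (q * b))) := by
      ext c
      cases c <;> simp [pr]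
    rw [MonoidHom.mem_ker] at h1 ⊢
    rw [h2, MonoidHom.comp_apply, h1, map_one]

lemma AS.der {L : Type*} [Group L] {Y : Subgroup L} {e : ℕ} (h : AS Y e) (A : Subgroup L)
    [A.Normal] (hA : A ≤ Y) (m : ℕ) : ∀ v ∈ A, v ^ e ^ m ∈ der A m := by
  induction m with
  | zero => intro v hv; simpa [H59.der] using hv
  | succ m ih =>
    intro v hv
    rw [pow_succ, pow_mul]
    exact h _ (der_normal A m) ((der_le A m).trans hA) _ (ih v hv)

end Pool.Agent.MP_3312ae_al.H59
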